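import Mathlib

set_option autoImplicit false

/-!
Definitions for MP_8d7136_an: Calkin algebras and unconditional finite-dimensional decompositions.
-/

namespace Pool.Agent.W_MP_8d7136_an

/-- `IsCalkinAlgebraOf B X`: the complex Banach algebra `B` is isomorphic, as a Banach algebra, to
the Calkin algebra of the complex Banach space `X`: there is a continuous surjective homomorphism of
complex algebras from the algebra of bounded operators of `X` onto `B` whose kernel is exactly the
set of compact operators (equivalently, by the open mapping theorem, a bounded linear multiplicative
bijection from the quotient by the compact operators onto `B`). -/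
def IsCalkinAlgebraOf (B X : Type*) [NormedRing B] [NormedAlgebra ℂ B]
    [NormedAddCommGroup X] [NormedSpace ℂ X] : Prop :=
  ∃ Φ : (X →L[ℂ] X) →ₐ[ℂ] B, Continuous Φ ∧ Function.Surjective Φ ∧
    ∀ T : X →L[ℂ] X, Φ T = 0 ↔ IsCompactOperator T

/-- `HasComplementedUFDD X`: there is a sequence of nonzero, pairwise orthogonal, finite-rank
bounded projections `p n` on `X` such that for every `x` the series of the `p n x` converges
unconditionally.  (Its sum is then a bounded projection of `X` onto an infinite-dimensional closed
subspace for which the ranges of the `p n` form an unconditional finite-dimensional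
decomposition; conversely every infinite-dimensional complemented subspace with an unconditional
finite-dimensional decomposition, e.g. with an unconditional basis, produces such a sequence.) -/
def HasComplementedUFDD (X : Type*) [NormedAddCommGroup X] [NormedSpace ℂ X] : Prop :=
  ∃ p : ℕ → (X →L[ℂ] X),
    (∀ n, p n ≠ 0) ∧
    (∀ n, FiniteDimensional ℂ (LinearMap.range (p n : X →ₗ[ℂ] X))) ∧
    (∀ m n, p m ∘L p n = if m = n then p n else 0) ∧
    ∀ x, Summable (fun n => p n x)

/-- The countable chain condition: every family of pairwise disjoint nonempty open sets is
countable. -/
def IsCCC (K : Type*) [TopologicalSpace K] : Prop :=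
  ∀ S : Set (Set K), (∀ U ∈ S, IsOpen U ∧ U.Nonempty) → S.PairwiseDisjoint id → S.Countable

end Pool.Agent.W_MP_8d7136_an
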