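import Pool.Agent.W_MP_8d7136_an.Defs

set_option autoImplicit false

open Topology Filter

namespace Pool.Agent.W_MP_8d7136_an

set_option linter.unusedSectionVars false

variable {X : Type*} [NormedAddCommGroup X] [NormedSpace ℂ X] [CompleteSpace X]

section ops

variable (p : ℕ → (X →L[ℂ] X)) (hp : ∀ x, Summable (fun n => p n x))

/-- The operator summing the projections with index in `A`. -/
noncomputable def TT (hp : ∀ x, Summable (fun n => p n x)) (A : Set ℕ) : X →L[ℂ] X :=
  continuousLinearMapOfTendsto (l := (atTop : Filter (Finset ℕ)))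
    (fun s : Finset ℕ => ∑ n ∈ s, A.indicator p n)
    (f := fun x => ∑' n, A.indicator (fun n => p n x) n) (by
      rw [tendsto_pi_nhds]
      intro x
      have h := ((hp x).indicator A).hasSum
      have h2 : (fun s : Finset ℕ => (∑ n ∈ s, A.indicator p n) x) =
          fun s : Finset ℕ => ∑ n ∈ s, A.indicator (fun n => p n x) n := by
        funext s
        rw [sum_apply]
        refine Finset.sum_congr rfl fun n _ => ?_
        by_cases hn : n ∈ A
        · simp [hn]
        · simp [hn]
      rw [h2]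
      exact h)

lemma TT_apply (A : Set ℕ) (x : X) :
    TT p hp A x = ∑' n, A.indicator (fun n => p n x) n := rfl

lemma hasSum_TT (A : Set ℕ) (x : X) :
    HasSum (A.indicator (fun n => p n x)) (TT p hp A x) := by
  rw [TT_apply]; exact ((hp x).indicator A).hasSum

variable (horth : ∀ m n, p m ∘L p n = if m = n then p n else 0)

include horth

lemma p_p (m n : ℕ) (x : X) : p m (p n x) = if m = n then p n x else 0 := by
  have := congrArg (fun T : X →L[ℂ] X => T x) (horth m n)
  simp only [ContinuousLinearMap.comp_apply] at this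
  rw [this]
  split_ifs <;> simp

lemma p_TT (A : Set ℕ) (m : ℕ) (x : X) :
    p m (TT p hp A x) = A.indicator (fun n => p n x) m := by
  have h := (hasSum_TT p hp A x).mapL (p m)
  have h2 : HasSum (fun n => p m (A.indicator (fun n => p n x) n))
      (A.indicator (fun n => p n x) m) := by
    have : (fun n => p m (A.indicator (fun n => p n x) n)) =
        fun n => if n = m then A.indicator (fun n => p n x) m else 0 := by
      funext n
      by_cases hn : n ∈ A
      · rw [Set.indicator_of_mem hn, p_p p horth]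
        by_cases hmn : m = n
        · subst hmn; simp [hn]
        · simp [hmn, Ne.symm hmn]
      · rw [Set.indicator_of_notMem hn, map_zero]
        by_cases hmn : n = m
        · subst hmn; simp [hn]
        · simp [hmn]
    rw [this]
    exact hasSum_ite_eq m _
  exact h.unique h2

lemma TT_TT (A B : Set ℕ) : TT p hp A * TT p hp B = TT p hp (A ∩ B) := by
  ext x
  change TT p hp A (TT p hp B x) = TT p hp (A ∩ B) x
  rw [TT_apply p hp A, TT_apply p hp (A ∩ B)]
  congr 1
  funext n
  by_cases hA : n ∈ A
  · rw [Set.indicator_of_mem hA, p_TT p hp horth]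
    by_cases hB : n ∈ B
    · rw [Set.indicator_of_mem hB, Set.indicator_of_mem (Set.mem_inter hA hB)]
    · rw [Set.indicator_of_notMem hB, Set.indicator_of_notMem (fun h => hB h.2)]
  · rw [Set.indicator_of_notMem hA, Set.indicator_of_notMem (fun h => hA h.1)]

omit horth in
lemma TT_add_of_disjoint (A B : Set ℕ) (h : Disjoint A B) :
    TT p hp (A ∪ B) = TT p hp A + TT p hp B := by
  ext x
  have h1 := (hasSum_TT p hp A x).add (hasSum_TT p hp B x)
  have h2 := hasSum_TT p hp (A ∪ B) x
  rw [Set.indicator_union_of_disjoint h] at h2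
  exact h2.unique h1

omit horth in
lemma TT_compact_of_finite (hfin : ∀ n, FiniteDimensional ℂ (LinearMap.range (p n : X →ₗ[ℂ] X)))
    (A : Set ℕ) (hA : A.Finite) : IsCompactOperator (TT p hp A) := by
  have h1 : ∀ n, IsCompactOperator (p n) := by
    intro n
    have := hfin n
    have : ProperSpace (LinearMap.range (p n : X →ₗ[ℂ] X)) := FiniteDimensional.proper ℂ _
    have hc : IsCompactOperator (Submodule.subtypeL (LinearMap.range (p n : X →ₗ[ℂ] X))) :=
      isCompactOperator_of_locallyCompactSpace_rng _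
    have := hc.comp_clm ((p n).codRestrict (LinearMap.range (p n : X →ₗ[ℂ] X))
      (fun x => LinearMap.mem_range_self _ x))
    exact this
  have h2 : TT p hp A = ∑ n ∈ hA.toFinset, p n := by
    ext x
    rw [TT_apply, tsum_eq_sum (s := hA.toFinset)]
    · rw [sum_apply]
      refine Finset.sum_congr rfl fun n hn => ?_
      rw [Set.indicator_of_mem (hA.mem_toFinset.1 hn)]
    · intro n hn
      rw [Set.indicator_of_notMem (fun h => hn (hA.mem_toFinset.2 h))]
  rw [h2]
  clear h2
  induction hA.toFinset using Finset.induction_on with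
  | empty => simpa using (isCompactOperator_zero (M₁ := X) (M₂ := X))
  | insert a s ha ih =>
    rw [Finset.sum_insert ha]
    exact (h1 a).add ih

lemma TT_not_compact_of_infinite (hne : ∀ n, p n ≠ 0) (A : Set ℕ) (hA : A.Infinite) :
    ¬ IsCompactOperator (TT p hp A) := by
  intro hc
  -- unit vectors
  have hx : ∀ n, ∃ x : X, ‖x‖ = 1 ∧ p n x = x := by
    intro n
    have : ∃ z, p n z ≠ 0 := by
      by_contra hcon
      push Not at hcon
      exact hne n (ContinuousLinearMap.ext hcon)
    obtain ⟨z, hz⟩ := this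
    refine ⟨((‖p n z‖ : ℂ)⁻¹) • p n z, ?_, ?_⟩
    · rw [norm_smul, norm_inv, Complex.norm_real, norm_norm]
      exact inv_mul_cancel₀ (norm_ne_zero_iff.2 hz)
    · rw [map_smul, p_p p horth, if_pos rfl]
  choose x hx1 hxp using hx
  let e : ℕ → ℕ := fun k => (Nat.nth (· ∈ A) k)
  have hemem : ∀ k, e k ∈ A := fun k => Nat.nth_mem_of_infinite hA k
  have heinj : StrictMono e := Nat.nth_strictMono hA
  have hTx : ∀ k, TT p hp A (x (e k)) = x (e k) := by
    intro k
    rw [TT_apply, tsum_eq_single (e k)]
    · rw [Set.indicator_of_mem (hemem k), hxp]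
    · intro n hn
      by_cases hnA : n ∈ A
      · rw [Set.indicator_of_mem hnA, ← hxp (e k), p_p p horth, if_neg hn]
      · rw [Set.indicator_of_notMem hnA]
  have hcpt := hc.isCompact_closure_image_closedBall (r := 1)
  have hmem : ∀ k, x (e k) ∈ closure (TT p hp A '' Metric.closedBall 0 1) := by
    intro k
    apply subset_closure
    refine ⟨x (e k), ?_, hTx k⟩
    simp [hx1]
  obtain ⟨y, -, φ, hφ, hy⟩ := hcpt.tendsto_subseq hmem
  have hny : ‖y‖ = 1 := by
    have h1 : Tendsto (fun k => ‖x (e (φ k))‖) atTop (𝓝 ‖y‖) := hy.norm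
    have h2 : (fun k => ‖x (e (φ k))‖) = fun _ => (1 : ℝ) := by
      funext k; exact hx1 _
    rw [h2] at h1
    exact (tendsto_nhds_unique h1 tendsto_const_nhds)
  have hpy : ∀ m, p m y = 0 := by
    intro m
    have h1 : Tendsto (fun k => p m (x (e (φ k)))) atTop (𝓝 (p m y)) :=
      ((p m).continuous.tendsto y).comp hy
    have h2 : ∀ᶠ k in atTop, p m (x (e (φ k))) = 0 := by
      filter_upwards [eventually_gt_atTop m] with k hk
      have : m < e (φ k) :=
        lt_of_lt_of_le hk (((heinj.comp hφ).id_le k))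
      rw [← hxp (e (φ k)), p_p p horth, if_neg (ne_of_lt this)]
    exact tendsto_nhds_unique h1 (tendsto_const_nhds.congr' (h2.mono fun k hk => hk.symm))
  have hTy : TT p hp A y = y := by
    have h1 : Tendsto (fun k => TT p hp A (x (e (φ k)))) atTop (𝓝 (TT p hp A y)) :=
      ((TT p hp A).continuous.tendsto y).comp hy
    have h2 : (fun k => TT p hp A (x (e (φ k)))) = fun k => x (e (φ k)) := by
      funext k; exact hTx _
    rw [h2] at h1
    exact tendsto_nhds_unique h1 hy
  have hy0 : y = 0 := by
    rw [← hTy, TT_apply]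
    have : (fun n => A.indicator (fun n => p n y) n) = fun _ => 0 := by
      funext n
      by_cases hn : n ∈ A
      · rw [Set.indicator_of_mem hn, hpy]
      · rw [Set.indicator_of_notMem hn]
    rw [this, tsum_zero]
  rw [hy0, norm_zero] at hny
  exact zero_ne_one hny

end ops

/-- An almost disjoint family of infinite subsets of the naturals indexed by binary sequences. -/
def adSet (r : ℕ → Bool) : Set ℕ :=
  Set.range fun n => Encodable.encode (List.ofFn fun i : Fin n => r i)

lemma adSet_infinite (r : ℕ → Bool) : (adSet r).Infinite := by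
  apply Set.infinite_range_of_injective
  intro m n h
  have := Encodable.encode_injective h
  have := congrArg List.length this
  simpa using this

lemma adSet_inter_finite (r s : ℕ → Bool) (h : r ≠ s) : (adSet r ∩ adSet s).Finite := by
  obtain ⟨k, hk⟩ := Function.ne_iff.1 h
  have : adSet r ∩ adSet s ⊆
      (fun n => Encodable.encode (List.ofFn fun i : Fin n => r i)) '' (Set.Iic k) := by
    rintro _ ⟨⟨m, rfl⟩, ⟨n, hn⟩⟩
    refine ⟨m, ?_, rfl⟩
    by_contra hmk
    simp only [Set.mem_Iic, not_le] at hmk
    have h1 := Encodable.encode_injective hn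
    have h2 := congrArg List.length h1
    simp only [List.length_ofFn] at h2
    subst h2
    have h3 := congrFun (List.ofFn_injective h1) ⟨k, hmk⟩
    exact hk h3.symm
  exact ((Set.finite_Iic k).image _).subset this

/-- The clopen set attached to a set of indices. -/
theorem exists_clopen_family {K : Type*} [TopologicalSpace K] [CompactSpace K]
    (hX : HasComplementedUFDD X) (hK : IsCalkinAlgebraOf C(K, ℂ) X) :
    ∃ U : Set ℕ → Set K, (∀ A, IsClopen (U A)) ∧ (∀ A B, U (A ∩ B) = U A ∩ U B) ∧
      (∀ A B, U (A ∪ B) = U A ∪ U B) ∧ (∀ A, U A = ∅ ↔ A.Finite) := by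
  obtain ⟨p, hne, hfin, horth, hsum⟩ := hX
  obtain ⟨Φ, -, -, hker⟩ := hK
  let φ : Set ℕ → C(K, ℂ) := fun A => Φ (TT p hsum A)
  have hmul : ∀ A B t, φ A t * φ B t = φ (A ∩ B) t := by
    intro A B t
    have : φ A * φ B = φ (A ∩ B) := by
      simp only [φ, ← map_mul, TT_TT p hsum horth]
    rw [← this]; rfl
  have hadd : ∀ A B t, Disjoint A B → φ (A ∪ B) t = φ A t + φ B t := by
    intro A B t h
    have : φ (A ∪ B) = φ A + φ B := by
      simp only [φ, ← map_add, TT_add_of_disjoint p hsum A B h]
    rw [this]; rfl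
  have h01 : ∀ A t, φ A t = 0 ∨ φ A t = 1 := by
    intro A t
    have h := hmul A A t
    rw [Set.inter_self] at h
    have h2 : φ A t * (φ A t - 1) = 0 := by rw [mul_sub, h]; ring
    rcases mul_eq_zero.1 h2 with h3 | h3
    · exact Or.inl h3
    · exact Or.inr (sub_eq_zero.1 h3)
  let U : Set ℕ → Set K := fun A => {t | φ A t = 1}
  have hU : ∀ A t, t ∈ U A ↔ φ A t = 1 := fun _ _ => Iff.rfl
  have hUn : ∀ A t, t ∉ U A ↔ φ A t = 0 := by
    intro A t
    rw [hU]
    rcases h01 A t with h | h
    · simp [h]
    · simp [h]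
  have hzero : ∀ A, A.Finite → ∀ t, φ A t = 0 := by
    intro A hA t
    have : φ A = 0 := (hker _).2 (TT_compact_of_finite p hsum hfin A hA)
    rw [this]; rfl
  have hinter : ∀ A B, U (A ∩ B) = U A ∩ U B := by
    intro A B
    ext t
    rw [Set.mem_inter_iff, hU, hU, hU, ← hmul]
    rcases h01 A t with h | h <;> rcases h01 B t with h' | h' <;> simp [h, h']
  have hunion_disj : ∀ A B, Disjoint A B → U (A ∪ B) = U A ∪ U B := by
    intro A B hAB
    ext t
    have h1 := hmul A B t
    rw [Set.disjoint_iff_inter_eq_empty.1 hAB, hzero ∅ Set.finite_empty t] at h1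
    rw [Set.mem_union, hU, hU, hU, hadd A B t hAB]
    rcases h01 A t with h | h <;> rcases h01 B t with h' | h' <;> simp [h, h'] at h1 ⊢
  have hmono : ∀ A B, A ⊆ B → U A ⊆ U B := by
    intro A B h
    rw [← Set.inter_eq_left.2 h, hinter]
    exact Set.inter_subset_right
  refine ⟨U, ?_, hinter, ?_, ?_⟩
  · intro A
    constructor
    · have : U A = (φ A) ⁻¹' {1} := rfl
      rw [this]
      exact isClosed_singleton.preimage (φ A).continuous
    · have : U A = (φ A) ⁻¹' {0}ᶜ := by
        ext t
        rw [Set.mem_preimage, Set.mem_compl_iff, Set.mem_singleton_iff, ← hUn, not_not]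
      rw [this]
      exact (isOpen_compl_singleton).preimage (φ A).continuous
  · intro A B
    apply le_antisymm
    · have h1 : A ∪ B = A ∪ (B \ A) := by simp
      rw [h1, hunion_disj A (B \ A) Set.disjoint_sdiff_right]
      exact Set.union_subset_union_right _ (hmono _ _ Set.sdiff_subset)
    · exact Set.union_subset (hmono _ _ Set.subset_union_left) (hmono _ _ Set.subset_union_right)
  · intro A
    constructor
    · intro h
      by_contra hA
      have hinf : A.Infinite := hA
      have : φ A = 0 := by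
        ext t
        have : t ∉ U A := by rw [h]; exact fun h => h
        exact (hUn A t).1 this
      exact TT_not_compact_of_infinite p hsum horth hne A hinf ((hker _).1 this)
    · intro hA
      ext t
      simp only [Set.mem_empty_iff_false, iff_false]
      exact (hUn A t).2 (hzero A hA t)

theorem not_ccc {K : Type*} [TopologicalSpace K]
    (U : Set ℕ → Set K) (h1 : ∀ A, IsClopen (U A)) (h2 : ∀ A B, U (A ∩ B) = U A ∩ U B)
    (h4 : ∀ A, U A = ∅ ↔ A.Finite) : ¬ IsCCC K := by
  intro hccc
  have hne : ∀ r : ℕ → Bool, (U (adSet r)).Nonempty := by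
    intro r
    rw [Set.nonempty_iff_ne_empty, Ne, h4]
    exact adSet_infinite r
  have hdisj : ∀ r s : ℕ → Bool, r ≠ s → Disjoint (U (adSet r)) (U (adSet s)) := by
    intro r s hrs
    rw [Set.disjoint_iff_inter_eq_empty, ← h2, h4]
    exact adSet_inter_finite r s hrs
  have hinj : Function.Injective fun r : ℕ → Bool => U (adSet r) := by
    intro r s hrs
    by_contra hne'
    have := hdisj r s hne'
    simp only at hrs
    rw [← hrs] at this
    exact (hne r).ne_empty (disjoint_self.1 this)
  have hS := hccc (Set.range fun r : ℕ → Bool => U (adSet r))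
    (by
      rintro _ ⟨r, rfl⟩
      exact ⟨(h1 _).isOpen, hne r⟩)
    (by
      rintro _ ⟨r, rfl⟩ _ ⟨s, rfl⟩ hrs
      exact hdisj r s (fun h => hrs (by rw [h])))
  have hcount : Countable (ℕ → Bool) := by
    rw [← Set.image_univ] at hS
    exact Set.countable_univ_iff.1 (Set.countable_of_injective_of_countable_image hinj.injOn hS)
  have h5 := Cardinal.mk_le_aleph0_iff.2 hcount
  rw [Cardinal.mk_pi] at h5
  simp only [Cardinal.mk_fintype, Fintype.card_bool, Nat.cast_ofNat, Cardinal.prod_const,
    Cardinal.lift_ofNat, Cardinal.mk_eq_aleph0, Cardinal.lift_aleph0,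
    Cardinal.two_power_aleph0] at h5
  exact absurd h5 (not_le.2 Cardinal.aleph0_lt_continuum)

/-- A clopen part of `K` maps onto the space of free ultrafilters on the naturals. -/
theorem exists_surjection {K : Type*} [TopologicalSpace K] [CompactSpace K]
    (U : Set ℕ → Set K) (h1 : ∀ A, IsClopen (U A)) (h2 : ∀ A B, U (A ∩ B) = U A ∩ U B)
    (h3 : ∀ A B, U (A ∪ B) = U A ∪ U B) (h4 : ∀ A, U A = ∅ ↔ A.Finite) :
    ∃ V : Set K, IsClopen V ∧ ∃ f : V → {u : Ultrafilter ℕ // (u : Filter ℕ) ≤ cofinite},
      Continuous f ∧ Function.Surjective f := by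
  have hmono : ∀ A B, A ⊆ B → U A ⊆ U B := by
    intro A B h
    rw [← Set.inter_eq_left.2 h, h2]
    exact Set.inter_subset_right
  have hcompl : ∀ A t, t ∈ U Set.univ → (t ∉ U A ↔ t ∈ U Aᶜ) := by
    intro A t ht
    have e1 : U Set.univ = U A ∪ U Aᶜ := by rw [← h3, Set.union_compl_self]
    have e2 : U A ∩ U Aᶜ = ∅ := by
      rw [← h2, Set.inter_compl_self]; exact (h4 ∅).2 Set.finite_empty
    rw [e1] at ht
    constructor
    · intro h; exact ht.resolve_left h
    · intro h h'
      have : t ∈ U A ∩ U Aᶜ := ⟨h', h⟩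
      rw [e2] at this
      exact this
  let F : ∀ t : U Set.univ, Filter ℕ := fun t =>
    { sets := {A | (t : K) ∈ U A}
      univ_sets := t.2
      sets_of_superset := fun {A B} hA hAB => hmono A B hAB hA
      inter_sets := fun {A B} hA hB => by
        change (t : K) ∈ U (A ∩ B)
        rw [h2]; exact ⟨hA, hB⟩ }
  have hF : ∀ t A, A ∈ F t ↔ (t : K) ∈ U A := fun _ _ => Iff.rfl
  let u : U Set.univ → Ultrafilter ℕ := fun t =>
    Ultrafilter.ofComplNotMemIff (F t) (by
      intro A
      rw [hF, hF]
      rw [hcompl Aᶜ t t.2, compl_compl])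
  have hu : ∀ t A, A ∈ u t ↔ (t : K) ∈ U A := fun _ _ => Iff.rfl
  have hfree : ∀ t, (u t : Filter ℕ) ≤ cofinite := by
    intro t A hA
    rw [mem_cofinite] at hA
    rw [Ultrafilter.mem_coe, hu]
    have h5 : (t : K) ∉ U Aᶜ := by rw [(h4 _).2 hA]; exact fun h => h
    have := (hcompl Aᶜ t t.2).1 h5
    rwa [compl_compl] at this
  refine ⟨U Set.univ, h1 _, fun t => ⟨u t, hfree t⟩, ?_, ?_⟩
  · apply Continuous.subtype_mk
    rw [continuous_generateFrom_iff]
    rintro _ ⟨A, rfl⟩
    have : u ⁻¹' {v | A ∈ v} = Subtype.val ⁻¹' (U A) := by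
      ext t
      exact hu t A
    rw [this]
    exact (h1 A).isOpen.preimage continuous_subtype_val
  · rintro ⟨v, hv⟩
    have hinf : ∀ A ∈ v, A.Infinite := by
      intro A hA hfin
      have h5 : Aᶜ ∈ v := hv (by rw [mem_cofinite, compl_compl]; exact hfin)
      exact Ultrafilter.compl_notMem_iff.2 hA h5
    have hnv : Nonempty {A : Set ℕ // A ∈ v} := ⟨⟨Set.univ, univ_mem⟩⟩
    have hne : (⋂ A : {A : Set ℕ // A ∈ v}, U A).Nonempty := by
      apply IsCompact.nonempty_iInter_of_directed_nonempty_isCompact_isClosed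
      · rintro ⟨A, hA⟩ ⟨B, hB⟩
        refine ⟨⟨A ∩ B, inter_mem hA hB⟩, ?_, ?_⟩
        · exact hmono _ _ Set.inter_subset_left
        · exact hmono _ _ Set.inter_subset_right
      · rintro ⟨A, hA⟩
        rw [Set.nonempty_iff_ne_empty, Ne, h4]
        exact hinf A hA
      · rintro ⟨A, hA⟩
        exact (h1 A).isClosed.isCompact
      · rintro ⟨A, hA⟩
        exact (h1 A).isClosed
    obtain ⟨t, ht⟩ := hne
    rw [Set.mem_iInter] at ht
    have htu : t ∈ U Set.univ := ht ⟨Set.univ, univ_mem⟩
    refine ⟨⟨t, htu⟩, ?_⟩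
    have hle : (u ⟨t, htu⟩ : Filter ℕ) ≤ v := by
      intro A hA
      rw [Ultrafilter.mem_coe, hu]
      exact ht ⟨A, hA⟩
    have heq : u ⟨t, htu⟩ = v := Ultrafilter.coe_le_coe.1 hle
    exact Subtype.ext heq

end Pool.Agent.W_MP_8d7136_an
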